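import Pool.Agent.H623R2.PS.TM

/-!
# Reset Mealy automata: definitions
-/

set_option autoImplicit false

namespace Pool.Agent.V11231.RM

open Pool.Agent.NPC

/-- A Mealy automaton, given by its table: the states are `0, …, n - 1`, where `n` is the number of
rows, the letters are `0, …, m - 1`, where `m` is the length of the rows, and the entry in row `q`
and column `a` is the pair `(q · a, q ∘ a)` of the next state and the output letter. -/
abbrev Table : Type := List (List (ℕ × ℕ))

/-- the number of states -/
def nSt (A : Table) : ℕ := A.length

/-- the number of letters -/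
def nLet (A : Table) : ℕ := (A.headD []).length

/-- The table is the table of a Mealy automaton with at least one state. -/
def IsMealy (A : Table) : Prop :=
  A ≠ [] ∧ ∀ r ∈ A, r.length = nLet A ∧ ∀ e ∈ r, e.1 < nSt A ∧ e.2 < nLet A

/-- the next state `q · a` -/
def next (A : Table) (q a : ℕ) : ℕ := ((A.getD q []).getD a (0, 0)).1

/-- the output letter `q ∘ a` -/
def outp (A : Table) (q a : ℕ) : ℕ := ((A.getD q []).getD a (0, 0)).2

/-- the state `q · u` -/
def run (A : Table) (q : ℕ) (u : List ℕ) : ℕ := u.foldl (next A) q

/-- the output word `q ∘ u` -/
def outWord (A : Table) : ℕ → List ℕ → List ℕ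
  | _, [] => []
  | q, a :: u => outp A q a :: outWord A (next A q a) u

/-- `u` is a word over the alphabet of the automaton -/
def IsWord (A : Table) (u : List ℕ) : Prop := ∀ a ∈ u, a < nLet A

/-- `u` is a synchronizing word: all states are mapped to the same state. -/
def Syn (A : Table) (u : List ℕ) : Prop := IsWord A u ∧ ∃ s, ∀ q < nSt A, run A q u = s

/-- The automaton is reset: it is synchronizing, and every state maps synchronizing words to
synchronizing words. -/
def IsReset (A : Table) : Prop :=
  (∃ u, Syn A u) ∧ ∀ q < nSt A, ∀ u, Syn A u → Syn A (outWord A q u)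

/-- The decision problem RESET. -/
def RESET (A : Table) : Prop := IsMealy A ∧ IsReset A

end Pool.Agent.V11231.RM
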