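import Pool.Agent.V11231.RM.Defs

/-!
# The reduction from rule systems
-/

set_option autoImplicit false

namespace Pool.Agent.V11231.RM

open Pool.Agent.NPC Pool.Agent.H623R2.PS

/-- the next state -/
def nxt (S : RS) (s a : ℕ) : ℕ :=
  if a = 0 then 0
  else if s = 0 then 0
  else if s = 1 then (if a = 2 then 0 else 1)
  else if s = 2 then (if a = 2 then 3 else 0)
  else if s = 3 then (if a = 1 ∨ 4 ≤ a then 3 else 0)
  else if a = 1 then s
  else if a = 2 then
    4 + (((s - 4) / (S.1 + 1)) * (S.1 + 1) + min (S.2.1.getD ((s - 4) / (S.1 + 1)) 0) S.1)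
  else if a = 3 then
    (if okf S.1 S.2.2.2 ((s - 4) / (S.1 + 1)) ((s - 4) % (S.1 + 1)) = true then 0 else 1)
  else
    4 + (((s - 4) / (S.1 + 1)) * (S.1 + 1) +
      min (tok S.1 (S.2.2.1.getD (a - 4) []) ((s - 4) / (S.1 + 1))
          ((s - 4) % (S.1 + 1))) S.1)

/-- the output letter -/
def ot (s a : ℕ) : ℕ := if (s = 2 ∧ a = 2) ∨ (s = 3 ∧ (a = 1 ∨ 3 ≤ a)) then 1 else 0

/-- the number of states -/
def ns (S : RS) : ℕ := 4 + S.2.1.length * (S.1 + 1)

/-- the number of letters -/
def nl (S : RS) : ℕ := 4 + S.2.2.1.length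

/-- the automaton -/
def tbl (S : RS) : Table :=
  (List.range (ns S)).map fun s => (List.range (nl S)).map fun a => (nxt S s a, ot s a)

theorem nSt_tbl (S : RS) : nSt (tbl S) = ns S := by simp [nSt, tbl]

theorem nLet_tbl (S : RS) : nLet (tbl S) = nl S := by
  have : ns S = (ns S - 1) + 1 := by unfold ns; omega
  unfold nLet tbl
  rw [this, List.range_succ_eq_map]
  simp

theorem row_tbl {S : RS} {s : ℕ} (hs : s < ns S) :
    (tbl S).getD s [] = (List.range (nl S)).map fun a => (nxt S s a, ot s a) := by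
  unfold tbl
  rw [List.getD_eq_getElem _ _ (by simpa using hs)]
  simp

theorem next_tbl {S : RS} {s a : ℕ} (hs : s < ns S) (ha : a < nl S) :
    next (tbl S) s a = nxt S s a := by
  unfold next
  rw [row_tbl hs, List.getD_eq_getElem _ _ (by simpa using ha)]
  simp

theorem outp_tbl {S : RS} {s a : ℕ} (hs : s < ns S) (ha : a < nl S) :
    outp (tbl S) s a = ot s a := by
  unfold outp
  rw [row_tbl hs, List.getD_eq_getElem _ _ (by simpa using ha)]
  simp

/-- the state for the token `t` with the value `v` -/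
def st (S : RS) (t v : ℕ) : ℕ := 4 + (t * (S.1 + 1) + v)

theorem st_lt {S : RS} {t v : ℕ} (ht : t < S.2.1.length) (hv : v ≤ S.1) : st S t v < ns S := by
  unfold st ns
  have : (t + 1) * (S.1 + 1) ≤ S.2.1.length * (S.1 + 1) := Nat.mul_le_mul_right _ ht
  nlinarith

theorem st_div {S : RS} {t v : ℕ} (hv : v ≤ S.1) : (st S t v - 4) / (S.1 + 1) = t := by
  unfold st
  rw [Nat.add_sub_cancel_left, Nat.add_comm, Nat.add_mul_div_right _ _ (by omega),
    Nat.div_eq_of_lt (by omega), zero_add]

theorem st_mod {S : RS} {t v : ℕ} (hv : v ≤ S.1) : (st S t v - 4) % (S.1 + 1) = v := by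
  unfold st
  rw [Nat.add_sub_cancel_left, Nat.add_comm, Nat.add_mul_mod_self_right,
    Nat.mod_eq_of_lt (by omega)]

theorem exists_st {S : RS} {s : ℕ} (hs : s < ns S) (h4 : 4 ≤ s) :
    ∃ t v, t < S.2.1.length ∧ v ≤ S.1 ∧ s = st S t v := by
  refine ⟨(s - 4) / (S.1 + 1), (s - 4) % (S.1 + 1), ?_, ?_, ?_⟩
  · rw [Nat.div_lt_iff_lt_mul (by omega)]
    unfold ns at hs
    omega
  · have := Nat.mod_lt (s - 4) (show 0 < S.1 + 1 by omega)
    omega
  · unfold st
    have := Nat.div_add_mod (s - 4) (S.1 + 1)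
    rw [Nat.mul_comm] at this
    omega

theorem nxt_one {S : RS} {t v : ℕ} : nxt S (st S t v) 1 = st S t v := by
  unfold nxt
  rw [if_neg (by omega), if_neg (by unfold st; omega), if_neg (by unfold st; omega),
    if_neg (by unfold st; omega), if_neg (by unfold st; omega), if_pos rfl]

theorem nxt_two {S : RS} {t v : ℕ} (hv : v ≤ S.1) :
    nxt S (st S t v) 2 = st S t (min (S.2.1.getD t 0) S.1) := by
  unfold nxt
  rw [if_neg (by omega), if_neg (by unfold st; omega), if_neg (by unfold st; omega),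
    if_neg (by unfold st; omega), if_neg (by unfold st; omega), if_neg (by omega), if_pos rfl,
    st_div hv]
  rfl

theorem nxt_three {S : RS} {t v : ℕ} (hv : v ≤ S.1) :
    nxt S (st S t v) 3 = if okf S.1 S.2.2.2 t v = true then 0 else 1 := by
  unfold nxt
  rw [if_neg (by omega), if_neg (by unfold st; omega), if_neg (by unfold st; omega),
    if_neg (by unfold st; omega), if_neg (by unfold st; omega), if_neg (by omega),
    if_neg (by omega), if_pos rfl, st_div hv, st_mod hv]

theorem nxt_rule {S : RS} {t v i : ℕ} (hv : v ≤ S.1) :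
    nxt S (st S t v) (4 + i) = st S t (min (tok S.1 (S.2.2.1.getD i []) t v) S.1) := by
  unfold nxt
  rw [if_neg (by omega), if_neg (by unfold st; omega), if_neg (by unfold st; omega),
    if_neg (by unfold st; omega), if_neg (by unfold st; omega), if_neg (by omega),
    if_neg (by omega), if_neg (by omega), st_div hv, st_mod hv, Nat.add_sub_cancel_left]
  rfl

theorem nxt_lt {S : RS} {s a : ℕ} (hs : s < ns S) : nxt S s a < ns S := by
  by_cases h4 : 4 ≤ s
  · obtain ⟨t, v, ht, hv, rfl⟩ := exists_st hs h4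
    have h0 : 1 < ns S := by unfold ns; omega
    rcases a with _ | _ | _ | _ | a
    · simp only [nxt, if_true]; omega
    · show nxt S (st S t v) 1 < ns S
      rw [nxt_one]; exact hs
    · show nxt S (st S t v) 2 < ns S
      rw [nxt_two hv]; exact st_lt ht (min_le_right _ _)
    · show nxt S (st S t v) 3 < ns S
      rw [nxt_three hv]; split_ifs <;> omega
    · have e : a + 1 + 1 + 1 + 1 = 4 + a := by omega
      rw [e, nxt_rule hv]; exact st_lt ht (min_le_right _ _)
  · have h0 : 3 < ns S := by unfold ns; omega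
    unfold nxt
    split_ifs <;> omega

/-! ### Words -/

/-- running -/
def rn (S : RS) (s : ℕ) (u : List ℕ) : ℕ := u.foldl (nxt S) s

/-- the output word -/
def ow (S : RS) : ℕ → List ℕ → List ℕ
  | _, [] => []
  | s, a :: u => ot s a :: ow S (nxt S s a) u

theorem rn_cons (S : RS) (s a : ℕ) (u : List ℕ) : rn S s (a :: u) = rn S (nxt S s a) u := rfl

theorem rn_append (S : RS) (s : ℕ) (u v : List ℕ) : rn S s (u ++ v) = rn S (rn S s u) v := by
  simp [rn]

theorem run_tbl {S : RS} {u : List ℕ} : ∀ {s : ℕ}, s < ns S → (∀ a ∈ u, a < nl S) →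
    run (tbl S) s u = rn S s u := by
  induction u with
  | nil => intro s _ _; rfl
  | cons a u ih =>
    intro s hs hu
    have h1 : run (tbl S) s (a :: u) = run (tbl S) (next (tbl S) s a) u := rfl
    rw [h1, next_tbl hs (hu a (by simp)), ih (nxt_lt hs) (fun b hb => hu b (by simp [hb]))]
    rfl

theorem outWord_tbl {S : RS} {u : List ℕ} : ∀ {s : ℕ}, s < ns S → (∀ a ∈ u, a < nl S) →
    outWord (tbl S) s u = ow S s u := by
  induction u with
  | nil => intro s _ _; rfl
  | cons a u ih =>
    intro s hs hu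
    rw [outWord, ow, outp_tbl hs (hu a (by simp)), next_tbl hs (hu a (by simp)),
      ih (nxt_lt hs) (fun b hb => hu b (by simp [hb]))]

theorem ow_le (S : RS) (u : List ℕ) : ∀ s, ∀ a ∈ ow S s u, a = 0 ∨ a = 1 := by
  induction u with
  | nil => intro s a ha; simp [ow] at ha
  | cons b u ih =>
    intro s a ha
    rw [ow, List.mem_cons] at ha
    rcases ha with rfl | ha
    · unfold ot; split_ifs <;> simp
    · exact ih _ a ha

theorem rn_zero (S : RS) (u : List ℕ) : rn S 0 u = 0 := by
  induction u with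
  | nil => rfl
  | cons a u ih =>
    rw [rn_cons]
    have : nxt S 0 a = 0 := by
      unfold nxt
      by_cases ha : a = 0
      · rw [if_pos ha]
      · rw [if_neg ha, if_pos rfl]
    rw [this, ih]

theorem rn_of_mem {S : RS} {u : List ℕ} (h : 0 ∈ u) : ∀ s, rn S s u = 0 := by
  induction u with
  | nil => simp at h
  | cons a u ih =>
    intro s
    rw [rn_cons]
    rcases List.mem_cons.1 h with h | h
    · subst h
      have : nxt S s 0 = 0 := by simp [nxt]
      rw [this, rn_zero]
    · exact ih h _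

/-- synchronization in terms of the functions -/
def Sy (S : RS) (u : List ℕ) : Prop := ∀ s < ns S, rn S s u = 0

theorem syn_iff {S : RS} {u : List ℕ} (hu : ∀ a ∈ u, a < nl S) : Syn (tbl S) u ↔ Sy S u := by
  have h0 : 0 < ns S := by unfold ns; omega
  unfold Syn IsWord Sy
  rw [nLet_tbl, nSt_tbl]
  constructor
  · rintro ⟨_, s, h⟩ q hq
    have h1 := h 0 h0
    have h2 := h q hq
    rw [run_tbl h0 hu, rn_zero] at h1
    rw [run_tbl hq hu] at h2
    rw [h2, ← h1]
  · intro h
    exact ⟨hu, 0, fun q hq => by rw [run_tbl hq hu]; exact h q hq⟩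

theorem rn_one {S : RS} {u : List ℕ} (h0 : 0 ∉ u) (h2 : 2 ∉ u) : rn S 1 u = 1 := by
  induction u with
  | nil => rfl
  | cons a u ih =>
    simp only [List.mem_cons, not_or] at h0 h2
    rw [rn_cons]
    have : nxt S 1 a = 1 := by
      unfold nxt
      rw [if_neg (Ne.symm h0.1), if_neg (by omega), if_pos rfl, if_neg (Ne.symm h2.1)]
    rw [this]
    exact ih h0.2 h2.2

theorem rn_three {S : RS} {u : List ℕ} (h : ∀ a ∈ u, a = 1 ∨ 4 ≤ a) : rn S 3 u = 3 := by
  induction u with
  | nil => rfl
  | cons a u ih =>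
    rw [rn_cons]
    have h1 := h a (by simp)
    have : nxt S 3 a = 3 := by
      unfold nxt
      rw [if_neg (by omega), if_neg (by omega), if_neg (by omega), if_neg (by omega),
        if_pos rfl, if_pos h1]
    rw [this]
    exact ih fun b hb => h b (by simp [hb])

theorem ow_three {S : RS} {u : List ℕ} (h : 0 ∉ ow S 3 u) :
    (∀ a ∈ u, a = 1 ∨ 4 ≤ a) ∨ ∃ w, u = w ++ [3] ∧ ∀ a ∈ w, a = 1 ∨ 4 ≤ a := by
  induction u with
  | nil => left; simp
  | cons a u ih =>
    rw [ow, List.mem_cons, not_or] at h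
    obtain ⟨h1, h2⟩ := h
    have ha : a = 1 ∨ 3 ≤ a := by
      unfold ot at h1
      split_ifs at h1 with hc
      · omega
      · omega
    by_cases h3 : a = 3
    · subst h3
      have e : nxt S 3 3 = 0 := by simp [nxt]
      rw [e] at h2
      cases u with
      | nil => right; exact ⟨[], by simp, by simp⟩
      | cons b u =>
        exfalso
        apply h2
        rw [ow, List.mem_cons]
        left
        simp [ot]
    · have ha' : a = 1 ∨ 4 ≤ a := by omega
      have e : nxt S 3 a = 3 := rn_three (u := [a]) (by simpa using ha')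
      rw [e] at h2
      rcases ih h2 with h | ⟨w, rfl, h⟩
      · left
        intro b hb
        rcases List.mem_cons.1 hb with rfl | hb
        · exact ha'
        · exact h b hb
      · right
        refine ⟨a :: w, rfl, ?_⟩
        intro b hb
        rcases List.mem_cons.1 hb with rfl | hb
        · exact ha'
        · exact h b hb

/-- the action of the rules on the tokens -/
theorem rn_token {S : RS} (hS : RSwf S) {w : List ℕ} (hw : ∀ a ∈ w, a = 1 ∨ 4 ≤ a)
    (hl : ∀ a ∈ w, a < nl S) : ∀ (t v : ℕ), v ≤ S.1 → rn S (st S t v) w =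
      st S t (runT S ((w.filter fun a => decide (4 ≤ a)).map fun a => a - 4) t v) := by
  induction w with
  | nil => intro t v _; rfl
  | cons a w ih =>
    intro t v hv
    have ih' := ih (fun b hb => hw b (by simp [hb])) (fun b hb => hl b (by simp [hb]))
    rw [rn_cons]
    rcases hw a (by simp) with rfl | h4
    · rw [nxt_one, ih' t v hv, List.filter_cons_of_neg (by simp)]
    · obtain ⟨i, rfl⟩ := Nat.exists_eq_add_of_le h4
      have hi : i < S.2.2.1.length := by
        have := hl (4 + i) (by simp)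
        unfold nl at this
        omega
      rw [nxt_rule hv, List.filter_cons_of_pos (by simp), List.map_cons]
      have h5 := tok_le hS (getD_mem hi) (t := t) hv
      rw [min_eq_left h5, ih' _ _ h5, Nat.add_sub_cancel_left]
      rfl

theorem runT_le' {S : RS} (hS : RSwf S) {w : List ℕ} (hw : ∀ i ∈ w, i < S.2.2.1.length)
    {t : ℕ} (ht : t < S.2.1.length) : runT S w t (S.2.1.getD t 0) ≤ S.1 := by
  refine runT_le hS hw ?_
  have : S.2.1.getD t 0 ∈ S.2.1 := by
    rw [List.getD_eq_getElem _ _ ht]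
    exact List.getElem_mem ht
  exact (hS.1 _ this).le

theorem init_le {S : RS} (hS : RSwf S) {t : ℕ} (ht : t < S.2.1.length) :
    min (S.2.1.getD t 0) S.1 = S.2.1.getD t 0 := by
  refine min_eq_left ?_
  have : S.2.1.getD t 0 ∈ S.2.1 := by
    rw [List.getD_eq_getElem _ _ ht]
    exact List.getElem_mem ht
  exact (hS.1 _ this).le

theorem sy_iff {S : RS} (hS : RSwf S) {w : List ℕ} (hw : ∀ a ∈ w, a = 1 ∨ 4 ≤ a)
    (hl : ∀ a ∈ w, a < nl S) : Sy S (2 :: (w ++ [3])) ↔
      ∀ t < S.2.1.length, okf S.1 S.2.2.2 t (runT S ((w.filter fun a => decide (4 ≤ a)).map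
        fun a => a - 4) t (S.2.1.getD t 0)) = true := by
  have hw' : ∀ i ∈ (w.filter fun a => decide (4 ≤ a)).map fun a => a - 4,
      i < S.2.2.1.length := by
    intro i hi
    simp only [List.mem_map, List.mem_filter, decide_eq_true_eq] at hi
    obtain ⟨a, ⟨h1, h2⟩, rfl⟩ := hi
    have := hl a h1
    unfold nl at this
    omega
  have key : ∀ t v, t < S.2.1.length → v ≤ S.1 → rn S (st S t v) (2 :: (w ++ [3])) =
      if okf S.1 S.2.2.2 t (runT S ((w.filter fun a => decide (4 ≤ a)).map
        fun a => a - 4) t (S.2.1.getD t 0)) = true then 0 else 1 := by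
    intro t v ht hv
    have h6 := hS.1 (S.2.1.getD t 0) (by
      rw [List.getD_eq_getElem _ _ ht]; exact List.getElem_mem ht)
    rw [rn_cons, nxt_two hv, init_le hS ht, rn_append, rn_token hS hw hl _ _ h6.le]
    show nxt S _ 3 = _
    rw [nxt_three (runT_le' hS hw' ht)]
  constructor
  · intro h t ht
    have h1 := h (st S t 0) (st_lt ht (Nat.zero_le _))
    rw [key t 0 ht (Nat.zero_le _)] at h1
    by_contra hc
    rw [if_neg hc] at h1
    omega
  · intro h s hs
    by_cases h4 : 4 ≤ s
    · obtain ⟨t, v, ht, hv, rfl⟩ := exists_st hs h4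
      rw [key t v ht hv, if_pos (h t ht)]
    · have h5 : s = 0 ∨ s = 1 ∨ s = 2 ∨ s = 3 := by omega
      rcases h5 with rfl | rfl | rfl | rfl
      · exact rn_zero S _
      · rw [rn_cons]
        have : nxt S 1 2 = 0 := by simp [nxt]
        rw [this, rn_zero]
      · rw [rn_cons]
        have : nxt S 2 2 = 3 := by simp [nxt]
        rw [this, rn_append, rn_three hw]
        simp [rn, nxt]
      · rw [rn_cons]
        have : nxt S 3 2 = 0 := by simp [nxt]
        rw [this, rn_zero]

theorem ow_replicate {S : RS} {w : List ℕ} (hw : ∀ a ∈ w, a = 1 ∨ 4 ≤ a) :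
    ∀ a ∈ ow S 2 (2 :: (w ++ [3])), a = 1 := by
  have h1 : ∀ w : List ℕ, (∀ a ∈ w, a = 1 ∨ 4 ≤ a) → ∀ a ∈ ow S 3 (w ++ [3]), a = 1 := by
    intro w
    induction w with
    | nil =>
      intro _ a ha
      simpa [ow, ot] using ha
    | cons b w ih =>
      intro hw a ha
      rw [List.cons_append, ow, List.mem_cons] at ha
      have hb := hw b (by simp)
      have e : nxt S 3 b = 3 := rn_three (u := [b]) (by simpa using hb)
      rcases ha with rfl | ha
      · unfold ot
        rw [if_pos (by omega)]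
      · rw [e] at ha
        exact ih (fun c hc => hw c (by simp [hc])) a ha
  intro a ha
  rw [ow, List.mem_cons] at ha
  rcases ha with rfl | ha
  · simp [ot]
  · have : nxt S 2 2 = 3 := by simp [nxt]
    rw [this] at ha
    exact h1 w hw a ha

/-- The automaton is reset if and only if the rule system is not solvable. -/
theorem reset_iff {S : RS} (hS : RSwf S) : IsReset (tbl S) ↔ ¬ RSyes S := by
  have h0 : 3 < ns S := by unfold ns; omega
  have how : ∀ {s : ℕ} {u : List ℕ}, ∀ a ∈ ow S s u, a < nl S := by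
    intro s u a ha
    have := ow_le S u s a ha
    unfold nl
    omega
  constructor
  · rintro ⟨_, h⟩ hy
    obtain ⟨w', hw1, hw2⟩ := (RSyes_iff S).1 hy
    set w := w'.map (fun i => 4 + i) with hwdef
    have hw : ∀ a ∈ w, a = 1 ∨ 4 ≤ a := by
      intro a ha
      obtain ⟨i, _, rfl⟩ := List.mem_map.1 ha
      right; omega
    have hl : ∀ a ∈ w, a < nl S := by
      intro a ha
      obtain ⟨i, hi, rfl⟩ := List.mem_map.1 ha
      have := hw1 i hi
      unfold nl
      omega
    have e : ((w.filter fun a => decide (4 ≤ a)).map fun a => a - 4) = w' := by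
      rw [hwdef, List.filter_eq_self.2 (by
        intro a ha
        obtain ⟨i, _, rfl⟩ := List.mem_map.1 ha
        exact decide_eq_true (by omega)), List.map_map]
      have : ((fun a => a - 4) ∘ fun i => 4 + i) = (id : ℕ → ℕ) := by
        funext i
        simp
      rw [this, List.map_id]
    have hsy : Sy S (2 :: (w ++ [3])) := by
      rw [sy_iff hS hw hl, e]
      exact hw2
    have hl' : ∀ a ∈ 2 :: (w ++ [3]), a < nl S := by
      intro a ha
      simp only [List.mem_cons, List.mem_append, List.not_mem_nil, or_false] at ha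
      rcases ha with rfl | ha | rfl
      · unfold nl; omega
      · exact hl a ha
      · unfold nl; omega
    have h1 := h 2 (by rw [nSt_tbl]; omega) _ ((syn_iff hl').2 hsy)
    rw [outWord_tbl (by omega) hl', syn_iff how] at h1
    have h2 := h1 1 (by omega)
    have h3 := ow_replicate (S := S) hw
    rw [rn_one (fun h => by simpa using h3 _ h) (fun h => by simpa using h3 _ h)] at h2
    omega
  · intro hno
    refine ⟨⟨[0], (syn_iff (by simp [nl])).2 fun s _ => rn_of_mem (by simp) s⟩, ?_⟩
    intro q hq u hu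
    rw [nSt_tbl] at hq
    have hul : ∀ a ∈ u, a < nl S := by
      intro a ha
      rw [← nLet_tbl]
      exact hu.1 a ha
    rw [syn_iff hul] at hu
    rw [outWord_tbl hq hul, syn_iff how]
    by_contra hcon
    have hz : 0 ∉ ow S q u := fun h => hcon fun s _ => rn_of_mem h s
    have hne : u ≠ [] := by
      rintro rfl
      have := hu 1 (by omega)
      simp [rn] at this
    obtain ⟨a, u', rfl⟩ := List.exists_cons_of_ne_nil hne
    have h02 : 0 ∈ a :: u' ∨ 2 ∈ a :: u' := by
      by_contra hc
      push Not at hc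
      have h1 := hu 1 (by omega)
      rw [rn_one hc.1 hc.2] at h1
      omega
    have h1 : q = 2 ∨ q = 3 := by
      by_contra hc
      push Not at hc
      apply hz
      rw [ow, List.mem_cons]
      left
      unfold ot
      rw [if_neg (by omega)]
    rcases h1 with rfl | rfl
    · have ha : a = 2 := by
        by_contra hc
        apply hz
        rw [ow, List.mem_cons]
        left
        unfold ot
        rw [if_neg (by omega)]
      subst ha
      have e : nxt S 2 2 = 3 := by simp [nxt]
      rw [ow, List.mem_cons, not_or, e] at hz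
      rcases ow_three hz.2 with h | ⟨w, rfl, h⟩
      · have h2 := hu 2 (by omega)
        rw [rn_cons, e, rn_three h] at h2
        omega
      · have hlw : ∀ b ∈ w, b < nl S := fun b hb => hul b (by simp [hb])
        rw [sy_iff hS h hlw] at hu
        apply hno
        rw [RSyes_iff]
        refine ⟨_, ?_, hu⟩
        intro i hi
        simp only [List.mem_map, List.mem_filter, decide_eq_true_eq] at hi
        obtain ⟨b, ⟨h1, h2⟩, rfl⟩ := hi
        have := hlw b h1
        unfold nl at this
        omega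
    · rcases ow_three hz with h | ⟨w, hw, h⟩
      · rcases h02 with g | g
        · have := h 0 g; omega
        · have := h 2 g; omega
      · rw [hw] at h02
        simp only [List.mem_append, List.mem_cons, List.not_mem_nil, or_false] at h02
        rcases h02 with (g | g) | (g | g)
        · have := h 0 g; omega
        · omega
        · have := h 2 g; omega
        · omega

theorem isMealy_tbl (S : RS) : IsMealy (tbl S) := by
  have h0 : 0 < ns S := by unfold ns; omega
  refine ⟨?_, ?_⟩
  · intro h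
    have := congrArg List.length h
    simp [tbl] at this
    omega
  · rw [nLet_tbl, nSt_tbl]
    intro r hr
    obtain ⟨s, hs, rfl⟩ := List.mem_map.1 hr
    rw [List.mem_range] at hs
    refine ⟨by simp, ?_⟩
    intro e he
    obtain ⟨a, ha, rfl⟩ := List.mem_map.1 he
    refine ⟨nxt_lt hs, ?_⟩
    simp only
    unfold ot nl
    split_ifs <;> omega

/-! ### Polynomial time -/

section poly

variable {α : Type} [TEnc α]

theorem nxt_poly {S : α → RS} {s a : α → ℕ} (hS : NPC.Poly S) (hs : NPC.Poly s)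
    (ha : NPC.Poly a) : NPC.Poly (fun x => nxt (S x) (s x) (a x)) := by
  have hV : NPC.Poly (fun x => (S x).1) := NPC.Poly.fst hS
  have hI : NPC.Poly (fun x => (S x).2.1) := NPC.Poly.fst (NPC.Poly.snd hS)
  have hR : NPC.Poly (fun x => (S x).2.2.1) := NPC.Poly.fst (NPC.Poly.snd (NPC.Poly.snd hS))
  have hF : NPC.Poly (fun x => (S x).2.2.2) := NPC.Poly.snd (NPC.Poly.snd (NPC.Poly.snd hS))
  have hc : ∀ n : ℕ, NPC.Poly (fun _ : α => n) := fun n => NPC.Poly.const n
  have heq : ∀ (n : ℕ) {f : α → ℕ}, NPC.Poly f → NPC.Poly (fun x => decide (f x = n)) :=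
    fun n f hf => NPC.Poly.decide_eq hf (hc n)
  have hV1 : NPC.Poly (fun x => (S x).1 + 1) := NPC.Poly.succ hV
  have hsub : NPC.Poly (fun x => s x - 4) := NPC.Poly.sub hs (hc _)
  have ht : NPC.Poly (fun x => (s x - 4) / ((S x).1 + 1)) := NPC.Poly.div hsub hV1
  have hv : NPC.Poly (fun x => (s x - 4) % ((S x).1 + 1)) := NPC.Poly.mod hsub hV1
  have hbase : ∀ {f : α → ℕ}, NPC.Poly f → NPC.Poly (fun x => 4 +
      (((s x - 4) / ((S x).1 + 1)) * ((S x).1 + 1) + min (f x) (S x).1)) :=
    fun hf => NPC.Poly.add (hc _) (NPC.Poly.add (NPC.Poly.mul ht hV1) (NPC.Poly.min hf hV))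
  unfold nxt
  refine NPC.Poly.ite (heq 0 ha) (hc 0) (NPC.Poly.ite (heq 0 hs) (hc 0)
    (NPC.Poly.ite (heq 1 hs) (NPC.Poly.ite (heq 2 ha) (hc 0) (hc 1))
    (NPC.Poly.ite (heq 2 hs) (NPC.Poly.ite (heq 2 ha) (hc 3) (hc 0))
    (NPC.Poly.ite (heq 3 hs) (NPC.Poly.ite (NPC.Poly.decide_or (heq 1 ha)
      (NPC.Poly.decide_le (hc 4) ha)) (hc 3) (hc 0)) (NPC.Poly.ite (heq 1 ha) hs
    (NPC.Poly.ite (heq 2 ha) (hbase (NPC.Poly.getD hI ht (hc 0))) (NPC.Poly.ite (heq 3 ha)
      (NPC.Poly.ite (NPC.Poly.decide_bool (poly_okf hV hF ht hv)) (hc 0) (hc 1))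
      (hbase (poly_tok hV (NPC.Poly.getD hR (NPC.Poly.sub ha (hc 4)) (NPC.Poly.const []))
        ht hv)))))))))

theorem ot_poly {s a : α → ℕ} (hs : NPC.Poly s) (ha : NPC.Poly a) :
    NPC.Poly (fun x => ot (s x) (a x)) := by
  have hc : ∀ n : ℕ, NPC.Poly (fun _ : α => n) := fun n => NPC.Poly.const n
  have heq : ∀ (n : ℕ) {f : α → ℕ}, NPC.Poly f → NPC.Poly (fun x => decide (f x = n)) :=
    fun n f hf => NPC.Poly.decide_eq hf (hc n)
  unfold ot
  exact NPC.Poly.ite (NPC.Poly.decide_or (NPC.Poly.decide_and (heq 2 hs) (heq 2 ha))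
    (NPC.Poly.decide_and (heq 3 hs) (NPC.Poly.decide_or (heq 1 ha)
      (NPC.Poly.decide_le (hc 3) ha)))) (hc 1) (hc 0)

theorem tbl_poly {S : α → RS} (hS : NPC.Poly S) (hU : UPoly (fun x => (S x).1)) :
    NPC.Poly (fun x => tbl (S x)) := by
  have hI : NPC.Poly (fun x => (S x).2.1) := NPC.Poly.fst (NPC.Poly.snd hS)
  have hR : NPC.Poly (fun x => (S x).2.2.1) := NPC.Poly.fst (NPC.Poly.snd (NPC.Poly.snd hS))
  have hn : UPoly (fun x => ns (S x)) := by
    unfold ns
    exact UPoly.add (UPoly.const _) (UPoly.mul (UPoly.length hI) (UPoly.add hU (UPoly.const 1)))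
  have hm : UPoly (fun x => nl (S x)) := UPoly.add (UPoly.const 4) (UPoly.length hR)
  unfold tbl
  refine NPC.Poly.map (F := fun x s => (List.range (nl (S x))).map fun a =>
    (nxt (S x) s a, ot s a)) hn.range ?_
  have hx : NPC.Poly (fun p : α × ℕ => p.1) := NPC.Poly.fst NPC.Poly.id
  refine NPC.Poly.map (F := fun (p : α × ℕ) a => (nxt (S p.1) p.2 a, ot p.2 a))
    (hm.comp hx).range ?_
  have hx : NPC.Poly (fun p : (α × ℕ) × ℕ => p.1.1) := NPC.Poly.fst (NPC.Poly.fst NPC.Poly.id)
  have hs : NPC.Poly (fun p : (α × ℕ) × ℕ => p.1.2) := NPC.Poly.snd (NPC.Poly.fst NPC.Poly.id)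
  have ha : NPC.Poly (fun p : (α × ℕ) × ℕ => p.2) := NPC.Poly.snd NPC.Poly.id
  exact NPC.Poly.pair (nxt_poly (hS.comp hx) hs ha) (ot_poly hs ha)

end poly

end Pool.Agent.V11231.RM
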