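import Pool.Agent.V11231.RM.Mem
import Pool.Agent.H671R2.PolyAuto
import Pool.Agent.V11231.PSp

/-!
# `RESET` is in `PSPACE`: polynomial time
-/

set_option autoImplicit false

namespace Pool.Agent.V11231.RM

open Pool.Agent.NPC Pool.Agent.H623R2.PS Pool.Agent.V11231.PSp

section poly

variable {α : Type} [TEnc α]

theorem nLet_eq (A : Table) : nLet A = (A.getD 0 []).length := by
  unfold nLet
  cases A <;> rfl

theorem uPoly_nSt {A : α → Table} (hA : NPC.Poly A) : UPoly (fun x => nSt (A x)) := by
  unfold nSt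
  exact UPoly.length hA

theorem uPoly_nLet {A : α → Table} (hA : NPC.Poly A) : UPoly (fun x => nLet (A x)) := by
  have : (fun x => nLet (A x)) = fun x => ((A x).getD 0 []).length := by
    funext x; exact nLet_eq _
  rw [this]
  exact UPoly.length (NPC.Poly.getD hA (NPC.Poly.const 0) (NPC.Poly.const []))

theorem poly_entry {A : α → Table} {q a : α → ℕ} (hA : NPC.Poly A) (hq : NPC.Poly q)
    (ha : NPC.Poly a) : NPC.Poly (fun x => ((A x).getD (q x) []).getD (a x) (0, 0)) :=
  NPC.Poly.getD (NPC.Poly.getD hA hq (NPC.Poly.const [])) ha (NPC.Poly.const (0, 0))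

theorem poly_next {A : α → Table} {q a : α → ℕ} (hA : NPC.Poly A) (hq : NPC.Poly q)
    (ha : NPC.Poly a) : NPC.Poly (fun x => next (A x) (q x) (a x)) :=
  NPC.Poly.fst (poly_entry hA hq ha)

theorem poly_outp {A : α → Table} {q a : α → ℕ} (hA : NPC.Poly A) (hq : NPC.Poly q)
    (ha : NPC.Poly a) : NPC.Poly (fun x => outp (A x) (q x) (a x)) :=
  NPC.Poly.snd (poly_entry hA hq ha)

theorem poly_one {n s : α → ℕ} (hn : UPoly n) (hs : NPC.Poly s) :
    NPC.Poly (fun x => one (n x) (s x)) := by
  unfold one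
  refine NPC.Poly.map (l := fun x => List.range (n x)) (F := fun x t => decide (t = s x))
    hn.range ?_
  exact NPC.Poly.decide_eq (NPC.Poly.snd NPC.Poly.id) (hs.comp (NPC.Poly.fst NPC.Poly.id))

theorem poly_sing {n : α → ℕ} {v : α → List Bool} (hn : UPoly n) (hv : NPC.Poly v) :
    NPC.Poly (fun x => sing (n x) (v x)) := by
  unfold sing
  refine NPC.Poly.any (l := fun x => List.range (n x)) (p := fun x s => decide (v x = one (n x) s))
    hn.range ?_
  have hx : NPC.Poly (fun p : α × ℕ => p.1) := NPC.Poly.fst NPC.Poly.id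
  exact NPC.Poly.decide_eq (hv.comp hx) (poly_one (hn.comp hx) (NPC.Poly.snd NPC.Poly.id))

theorem poly_img {A : α → Table} {a : α → ℕ} {v : α → List Bool} (hA : NPC.Poly A)
    (ha : NPC.Poly a) (hv : NPC.Poly v) : NPC.Poly (fun x => img (A x) (a x) (v x)) := by
  unfold img
  refine NPC.Poly.map (l := fun x => List.range (nSt (A x))) (F := fun x t =>
    (List.range (nSt (A x))).any fun s => (v x).getD s false && decide (next (A x) s (a x) = t))
    (uPoly_nSt hA).range ?_
  have hx : NPC.Poly (fun p : α × ℕ => p.1) := NPC.Poly.fst NPC.Poly.id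
  refine NPC.Poly.any (l := fun p : α × ℕ => List.range (nSt (A p.1)))
    (p := fun p s => (v p.1).getD s false && decide (next (A p.1) s (a p.1) = p.2))
    ((uPoly_nSt hA).comp hx).range ?_
  have hx2 : NPC.Poly (fun p : (α × ℕ) × ℕ => p.1.1) := NPC.Poly.fst (NPC.Poly.fst NPC.Poly.id)
  have ht : NPC.Poly (fun p : (α × ℕ) × ℕ => p.1.2) := NPC.Poly.snd (NPC.Poly.fst NPC.Poly.id)
  have hs : NPC.Poly (fun p : (α × ℕ) × ℕ => p.2) := NPC.Poly.snd NPC.Poly.id
  exact NPC.Poly.and (NPC.Poly.getD (hv.comp hx2) hs (NPC.Poly.const false))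
    (NPC.Poly.decide_eq (poly_next (hA.comp hx2) hs (ha.comp hx2)) ht)

theorem poly_stp1 {A : α → Table} {v w : α → List Bool} (hA : NPC.Poly A) (hv : NPC.Poly v)
    (hw : NPC.Poly w) : NPC.Poly (fun x => stp1 (A x) (v x) (w x)) := by
  unfold stp1
  refine NPC.Poly.or ?_ (NPC.Poly.and (poly_sing (uPoly_nSt hA) hv)
    (NPC.Poly.decide_eq hw (poly_replicate (uPoly_nSt hA) false)))
  refine NPC.Poly.any (l := fun x => List.range (nLet (A x)))
    (p := fun x a => decide (w x = img (A x) a (v x))) (uPoly_nLet hA).range ?_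
  have hx : NPC.Poly (fun p : α × ℕ => p.1) := NPC.Poly.fst NPC.Poly.id
  exact NPC.Poly.decide_eq (hw.comp hx) (poly_img (hA.comp hx) (NPC.Poly.snd NPC.Poly.id)
    (hv.comp hx))

theorem poly_stp2 {A : α → Table} {v w : α → List Bool} (hA : NPC.Poly A) (hv : NPC.Poly v)
    (hw : NPC.Poly w) : NPC.Poly (fun x => stp2 (A x) (v x) (w x)) := by
  have hn := uPoly_nSt hA
  have h3 : UPoly (fun x => 3 * nSt (A x)) := UPoly.mul (UPoly.const 3) hn
  have h2 : UPoly (fun x => 2 * nSt (A x)) := UPoly.mul (UPoly.const 2) hn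
  have hx : NPC.Poly (fun p : α × ℕ => p.1) := NPC.Poly.fst NPC.Poly.id
  have hx2 : NPC.Poly (fun p : (α × ℕ) × ℕ => p.1.1) := NPC.Poly.fst (NPC.Poly.fst NPC.Poly.id)
  have hq : NPC.Poly (fun p : (α × ℕ) × ℕ => p.1.2) := NPC.Poly.snd (NPC.Poly.fst NPC.Poly.id)
  have ha : NPC.Poly (fun p : (α × ℕ) × ℕ => p.2) := NPC.Poly.snd NPC.Poly.id
  have hs : NPC.Poly (fun p : α × ℕ => p.2) := NPC.Poly.snd NPC.Poly.id
  have ht1 : NPC.Poly (fun x => (v x).take (nSt (A x))) := poly_take hv hn.toPoly
  have hd1 : NPC.Poly (fun x => (v x).drop (nSt (A x))) := poly_drop hv hn.toPoly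
  have hd2 : NPC.Poly (fun x => (v x).drop (2 * nSt (A x))) := poly_drop hv h2.toPoly
  have htd : NPC.Poly (fun x => ((v x).drop (nSt (A x))).take (nSt (A x))) :=
    poly_take hd1 hn.toPoly
  unfold stp2
  refine NPC.Poly.or (NPC.Poly.and (NPC.Poly.decide_eq hv (poly_replicate h3 true)) ?_)
    (NPC.Poly.or ?_ (NPC.Poly.and (NPC.Poly.and (poly_sing hn ht1)
      (NPC.Poly.not (poly_sing hn hd2))) (NPC.Poly.decide_eq hw (poly_replicate h3 false))))
  · refine NPC.Poly.any (l := fun x => List.range (nSt (A x)))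
      (p := fun x q => decide (w x = List.replicate (nSt (A x)) true ++
        (one (nSt (A x)) q ++ List.replicate (nSt (A x)) true))) hn.range ?_
    exact NPC.Poly.decide_eq (hw.comp hx) (NPC.Poly.append (poly_replicate (hn.comp hx) true)
      (NPC.Poly.append (poly_one (hn.comp hx) hs) (poly_replicate (hn.comp hx) true)))
  · refine NPC.Poly.any (l := fun x => List.range (nSt (A x)))
      (p := fun x q => decide (((v x).drop (nSt (A x))).take (nSt (A x)) = one (nSt (A x)) q) &&
        (List.range (nLet (A x))).any fun a =>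
          decide (w x = img (A x) a ((v x).take (nSt (A x))) ++ (one (nSt (A x))
            (next (A x) q a) ++ img (A x) (outp (A x) q a) ((v x).drop (2 * nSt (A x))))))
      hn.range ?_
    refine NPC.Poly.and (NPC.Poly.decide_eq (htd.comp hx) (poly_one (hn.comp hx) hs)) ?_
    refine NPC.Poly.any (l := fun p : α × ℕ => List.range (nLet (A p.1)))
      (p := fun p a => decide (w p.1 = img (A p.1) a ((v p.1).take (nSt (A p.1))) ++
        (one (nSt (A p.1)) (next (A p.1) p.2 a) ++ img (A p.1) (outp (A p.1) p.2 a)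
          ((v p.1).drop (2 * nSt (A p.1)))))) ((uPoly_nLet hA).comp hx).range ?_
    exact NPC.Poly.decide_eq (hw.comp hx2) (NPC.Poly.append (poly_img (hA.comp hx2) ha
      (ht1.comp hx2)) (NPC.Poly.append (poly_one (hn.comp hx2) (poly_next (hA.comp hx2) hq ha))
      (poly_img (hA.comp hx2) (poly_outp (hA.comp hx2) hq ha) (hd2.comp hx2))))

end poly

/-- the test of a table -/
def good (A : Table) : Bool :=
  !(decide (A.length = 0)) && A.all fun r => decide (r.length = nLet A) &&
    r.all fun e => decide (e.1 < nSt A) && decide (e.2 < nLet A)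

theorem good_iff (A : Table) : good A = true ↔ IsMealy A := by
  unfold good IsMealy
  rw [Bool.and_eq_true, List.all_eq_true]
  refine and_congr ?_ ?_
  · cases A <;> simp
  · refine forall_congr' fun r => forall_congr' fun _ => ?_
    rw [Bool.and_eq_true, List.all_eq_true, decide_eq_true_eq]
    refine and_congr_right fun _ => forall_congr' fun e => forall_congr' fun _ => ?_
    rw [Bool.and_eq_true, decide_eq_true_eq, decide_eq_true_eq]

theorem poly_good : NPC.Poly good := by
  have hid : NPC.Poly (fun A : Table => A) := NPC.Poly.id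
  have hA : NPC.Poly (fun p : Table × List (ℕ × ℕ) => p.1) := NPC.Poly.fst NPC.Poly.id
  have hr : NPC.Poly (fun p : Table × List (ℕ × ℕ) => p.2) := NPC.Poly.snd NPC.Poly.id
  have hA2 : NPC.Poly (fun p : (Table × List (ℕ × ℕ)) × (ℕ × ℕ) => p.1.1) :=
    NPC.Poly.fst (NPC.Poly.fst NPC.Poly.id)
  have he : NPC.Poly (fun p : (Table × List (ℕ × ℕ)) × (ℕ × ℕ) => p.2) :=
    NPC.Poly.snd NPC.Poly.id
  unfold good
  refine NPC.Poly.and (NPC.Poly.not (NPC.Poly.decide_eq (NPC.Poly.length hid)
    (NPC.Poly.const 0))) ?_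
  refine NPC.Poly.all (l := fun A : Table => A) (p := fun A r => decide (r.length = nLet A) &&
    r.all fun e => decide (e.1 < nSt A) && decide (e.2 < nLet A)) hid ?_
  refine NPC.Poly.and (NPC.Poly.decide_eq (NPC.Poly.length hr) (uPoly_nLet hA).toPoly) ?_
  refine NPC.Poly.all (l := fun p : Table × List (ℕ × ℕ) => p.2)
    (p := fun p e => decide (e.1 < nSt p.1) && decide (e.2 < nLet p.1)) hr ?_
  exact NPC.Poly.and (NPC.Poly.decide_lt (NPC.Poly.fst he) (uPoly_nSt hA2).toPoly)
    (NPC.Poly.decide_lt (NPC.Poly.snd he) (uPoly_nLet hA2).toPoly)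

/-- the table coded by the input, or a bad table -/
def init (x : List Bool) : Table := (unbits Table x).getD []

theorem poly_init : NPC.Poly init := NPC.Poly.optGetD poly_unbits (NPC.Poly.const _)

theorem inP1 : InPSPACE {x : List Bool | good (init x) = true ∧ ∃ u, Syn (init x) u} := by
  have hw : UPoly (fun A : Table => nSt A) := uPoly_nSt NPC.Poly.id
  refine inPSPACE_of_reach poly_init hw (good := good) poly_good (R := stp1)
    (poly_stp1 (NPC.Poly.fst NPC.Poly.id) (NPC.Poly.fst (NPC.Poly.snd NPC.Poly.id))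
      (NPC.Poly.snd (NPC.Poly.snd NPC.Poly.id)))
    (s := fun A => List.replicate (nSt A) true) (t := fun A => List.replicate (nSt A) false)
    (poly_replicate hw true) (poly_replicate hw false) ?_ ?_ ?_
  · intro A; simp
  · intro A v w _ h
    unfold stp1 at h
    rw [Bool.or_eq_true, List.any_eq_true, Bool.and_eq_true] at h
    rcases h with ⟨a, _, h⟩ | ⟨_, h⟩
    · rw [decide_eq_true_eq] at h
      rw [h, img_length]
    · rw [decide_eq_true_eq] at h
      rw [h]
      simp
  · intro x
    refine and_congr_right fun h => ?_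
    exact (reach1 ((good_iff _).1 h)).symm

theorem inP2 : InPSPACE {x : List Bool | good (init x) = true ∧ Viol (init x)} := by
  have hw : UPoly (fun A : Table => 3 * nSt A) :=
    UPoly.mul (UPoly.const 3) (uPoly_nSt NPC.Poly.id)
  refine inPSPACE_of_reach poly_init hw (good := good) poly_good (R := stp2)
    (poly_stp2 (NPC.Poly.fst NPC.Poly.id) (NPC.Poly.fst (NPC.Poly.snd NPC.Poly.id))
      (NPC.Poly.snd (NPC.Poly.snd NPC.Poly.id)))
    (s := fun A => List.replicate (3 * nSt A) true)
    (t := fun A => List.replicate (3 * nSt A) false)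
    (poly_replicate hw true) (poly_replicate hw false) ?_ ?_ ?_
  · intro A; simp
  · intro A v w _ h
    unfold stp2 at h
    rw [Bool.or_eq_true, Bool.or_eq_true, Bool.and_eq_true, Bool.and_eq_true,
      List.any_eq_true, List.any_eq_true] at h
    rcases h with ⟨_, q, _, h⟩ | ⟨q, _, h⟩ | ⟨_, h⟩
    · rw [decide_eq_true_eq] at h
      rw [h, List.length_append, List.length_append, one_length, List.length_replicate]
      omega
    · rw [Bool.and_eq_true, List.any_eq_true] at h
      obtain ⟨_, a, _, h⟩ := h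
      rw [decide_eq_true_eq] at h
      rw [h, List.length_append, List.length_append, one_length, img_length, img_length]
      omega
    · rw [decide_eq_true_eq] at h
      rw [h]
      simp
  · intro x
    refine and_congr_right fun h => ?_
    exact (reach2 ((good_iff _).1 h)).symm

theorem isReset_iff (A : Table) : IsReset A ↔ (∃ u, Syn A u) ∧ ¬ Viol A := by
  unfold IsReset Viol
  refine and_congr_right fun _ => ?_
  constructor
  · rintro h ⟨q, hq, u, h1, h2⟩
    exact h2 (h q hq u h1)
  · intro h q hq u h1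
    by_contra h2
    exact h ⟨q, hq, u, h1, h2⟩

theorem mem_lang (x : List Bool) :
    x ∈ lang RESET ↔ (x ∈ {x : List Bool | good (init x) = true ∧ ∃ u, Syn (init x) u}) ∧
      x ∉ {x : List Bool | good (init x) = true ∧ Viol (init x)} := by
  rw [mem_lang_iff, Set.mem_setOf_eq, Set.mem_setOf_eq]
  constructor
  · rintro ⟨A, hA, h1, h2⟩
    have e : init x = A := by unfold init; rw [hA, Option.getD_some]
    rw [e, good_iff]
    rw [isReset_iff] at h2
    exact ⟨⟨h1, h2.1⟩, fun h => h2.2 h.2⟩
  · rintro ⟨⟨h1, h2⟩, h3⟩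
    cases hx : unbits Table x with
    | none =>
      exfalso
      unfold init at h1
      rw [hx, Option.getD_none] at h1
      exact absurd h1 (by decide)
    | some A =>
      have e : init x = A := by unfold init; rw [hx, Option.getD_some]
      rw [e] at h1 h2 h3
      exact ⟨A, rfl, (good_iff _).1 h1, (isReset_iff _).2 ⟨h2, fun h => h3 ⟨h1, h⟩⟩⟩

theorem reset_inPSPACE : InPSPACE (lang RESET) := inPSPACE_diff inP1 inP2 mem_lang

end Pool.Agent.V11231.RM
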