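import Pool.Agent.V11231.RM.Hard
import Pool.Agent.V11231.RM.MemPoly
import Pool.Agent.H622R2.CoNP

/-!
# `RESET` is `PSPACE`-complete
-/

set_option autoImplicit false

namespace Pool.Agent.V11231.RM

open Pool.Agent.NPC Pool.Agent.H623R2.PS Pool.Agent.V11231.PSp

theorem reset_hard : PSPACEHard (lang RESET) := by
  intro L hL
  obtain ⟨S, hS, hU, hwf, hiff⟩ := pspace_rules (inPSPACE_compl hL)
  refine ⟨fun x => bits (tbl (S x)), polyTime_bits (tbl_poly hS hU), fun x => ?_⟩
  rw [bits_mem_lang]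
  unfold RESET
  rw [reset_iff (hwf x), ← hiff x, Set.mem_compl_iff, not_not]
  exact ⟨fun h => ⟨isMealy_tbl _, h⟩, fun h => h.2⟩

theorem reset_complete : PSPACEComplete (lang RESET) := ⟨reset_inPSPACE, reset_hard⟩

theorem reset_np : InNP (lang RESET) ↔ ∀ L : Set (List Bool), InPSPACE L → InNP L :=
  ⟨fun h L hL => Pool.Agent.H622R2.InNP.of_reduces (reset_hard L hL) h,
    fun h => h _ reset_inPSPACE⟩

end Pool.Agent.V11231.RM
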