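import Pool.Agent.V11231.RM.Defs
import Pool.Agent.H623R2.PS.Savitch
import Pool.Agent.H623R2.PS.RulesPoly
import Pool.Agent.NPC.Dec
import Pool.Agent.W903.GP.SpLang

/-!
# `RESET` is in `PSPACE`
-/

set_option autoImplicit false

namespace Pool.Agent.V11231.RM

open Pool.Agent.NPC Pool.Agent.H623R2.PS

/-! ### Runs -/

theorem IsMealy.pos {A : Table} (h : IsMealy A) : 0 < nSt A := by
  unfold nSt
  exact List.length_pos_iff.2 h.1

theorem IsMealy.entry {A : Table} (h : IsMealy A) {q a : ℕ} (hq : q < nSt A) (ha : a < nLet A) :
    next A q a < nSt A ∧ outp A q a < nLet A := by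
  unfold next outp
  have hq' : q < A.length := hq
  rw [List.getD_eq_getElem _ _ hq']
  have h1 := h.2 A[q] (List.getElem_mem _)
  have ha' : a < A[q].length := by rw [h1.1]; exact ha
  rw [List.getD_eq_getElem _ _ ha']
  exact h1.2 _ (List.getElem_mem _)

theorem run_append (A : Table) (q : ℕ) (u v : List ℕ) :
    run A q (u ++ v) = run A (run A q u) v := by simp [run]

theorem run_snoc (A : Table) (q : ℕ) (u : List ℕ) (a : ℕ) :
    run A q (u ++ [a]) = next A (run A q u) a := by simp [run]

theorem run_lt {A : Table} (h : IsMealy A) {u : List ℕ} (hu : IsWord A u) {q : ℕ}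
    (hq : q < nSt A) : run A q u < nSt A := by
  induction u generalizing q with
  | nil => exact hq
  | cons a u ih =>
    have h1 : run A q (a :: u) = run A (next A q a) u := rfl
    rw [h1]
    exact ih (fun b hb => hu b (by simp [hb])) (h.entry hq (hu a (by simp))).1

theorem outWord_snoc (A : Table) (u : List ℕ) (a : ℕ) : ∀ q : ℕ,
    outWord A q (u ++ [a]) = outWord A q u ++ [outp A (run A q u) a] := by
  induction u with
  | nil => intro q; rfl
  | cons b u ih =>
    intro q
    rw [List.cons_append, outWord, outWord, ih]
    rfl

theorem isWord_outWord {A : Table} (h : IsMealy A) {u : List ℕ} (hu : IsWord A u) {q : ℕ}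
    (hq : q < nSt A) : IsWord A (outWord A q u) := by
  induction u generalizing q with
  | nil => intro a ha; simp [outWord] at ha
  | cons a u ih =>
    intro b hb
    rw [outWord, List.mem_cons] at hb
    have h1 := h.entry hq (hu a (by simp))
    rcases hb with rfl | hb
    · exact h1.2
    · exact ih (fun c hc => hu c (by simp [hc])) h1.1 b hb

theorem isWord_snoc {A : Table} {u : List ℕ} {a : ℕ} :
    IsWord A (u ++ [a]) ↔ IsWord A u ∧ a < nLet A := by
  unfold IsWord
  constructor
  · intro h
    exact ⟨fun b hb => h b (by simp [hb]), h a (by simp)⟩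
  · rintro ⟨h1, h2⟩ b hb
    rw [List.mem_append, List.mem_singleton] at hb
    rcases hb with hb | rfl
    · exact h1 b hb
    · exact h2

/-! ### Bit vectors -/

/-- the characteristic vector of a singleton -/
def one (n s : ℕ) : List Bool := (List.range n).map fun t => decide (t = s)

/-- the test for singletons -/
def sing (n : ℕ) (v : List Bool) : Bool := (List.range n).any fun s => decide (v = one n s)

/-- the image of a set under a letter -/
def img (A : Table) (a : ℕ) (v : List Bool) : List Bool :=
  (List.range (nSt A)).map fun t =>
    (List.range (nSt A)).any fun s => v.getD s false && decide (next A s a = t)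

/-- the characteristic vector of the image of the set of states -/
def ims (A : Table) (u : List ℕ) : List Bool :=
  (List.range (nSt A)).map fun t => (List.range (nSt A)).any fun s => decide (run A s u = t)

theorem one_length (n s : ℕ) : (one n s).length = n := by simp [one]
theorem img_length (A : Table) (a : ℕ) (v : List Bool) : (img A a v).length = nSt A := by simp [img]
theorem ims_length (A : Table) (u : List ℕ) : (ims A u).length = nSt A := by simp [ims]

theorem one_getD {n s t : ℕ} (ht : t < n) : (one n s).getD t false = decide (t = s) := by
  unfold one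
  rw [List.getD_eq_getElem _ _ (by simpa using ht)]
  simp

theorem ims_getD {A : Table} {u : List ℕ} {t : ℕ} (ht : t < nSt A) :
    (ims A u).getD t false = (List.range (nSt A)).any fun s => decide (run A s u = t) := by
  unfold ims
  rw [List.getD_eq_getElem _ _ (by simpa using ht)]
  simp

theorem one_inj {n s t : ℕ} (hs : s < n) (h : one n s = one n t) : s = t := by
  have h1 := one_getD (n := n) (s := s) hs
  rw [h, one_getD hs] at h1
  simpa using h1

theorem map_range_congr {n : ℕ} {f g : ℕ → Bool} (h : ∀ t < n, f t = g t) :
    (List.range n).map f = (List.range n).map g := by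
  apply List.map_congr_left
  intro t ht
  exact h t (List.mem_range.1 ht)

theorem ims_nil (A : Table) : ims A [] = List.replicate (nSt A) true := by
  apply List.ext_getElem
  · simp [ims]
  · intro i h1 h2
    have hi : i < nSt A := by simpa [ims] using h1
    simp only [ims, List.getElem_map, List.getElem_range, List.getElem_replicate, List.any_eq_true,
      List.mem_range, decide_eq_true_eq]
    exact ⟨i, hi, rfl⟩

theorem img_ims {A : Table} (h : IsMealy A) {u : List ℕ} (hu : IsWord A u) (a : ℕ) :
    img A a (ims A u) = ims A (u ++ [a]) := by
  unfold img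
  rw [show ims A (u ++ [a]) = (List.range (nSt A)).map fun t =>
    (List.range (nSt A)).any fun s => decide (run A s (u ++ [a]) = t) from rfl]
  apply map_range_congr
  intro t ht
  rw [Bool.eq_iff_iff, List.any_eq_true, List.any_eq_true]
  constructor
  · rintro ⟨s, hs, h1⟩
    rw [Bool.and_eq_true, ims_getD (List.mem_range.1 hs), List.any_eq_true,
      decide_eq_true_eq] at h1
    obtain ⟨⟨p, hp, h2⟩, h3⟩ := h1
    rw [decide_eq_true_eq] at h2
    refine ⟨p, hp, ?_⟩
    rw [decide_eq_true_eq, run_snoc, h2, h3]
  · rintro ⟨p, hp, h1⟩
    rw [decide_eq_true_eq, run_snoc] at h1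
    have h2 := run_lt h hu (List.mem_range.1 hp)
    refine ⟨run A p u, List.mem_range.2 h2, ?_⟩
    rw [Bool.and_eq_true, ims_getD h2, List.any_eq_true, decide_eq_true_eq]
    exact ⟨⟨p, hp, by simp⟩, h1⟩

theorem syn_iff_sing {A : Table} (h : IsMealy A) {u : List ℕ} (hu : IsWord A u) :
    Syn A u ↔ sing (nSt A) (ims A u) = true := by
  unfold Syn sing
  rw [List.any_eq_true]
  constructor
  · rintro ⟨_, s, hs⟩
    have h0 := h.pos
    have h1 : s < nSt A := by
      rw [← hs 0 h0]
      exact run_lt h hu h0
    refine ⟨s, List.mem_range.2 h1, ?_⟩
    rw [decide_eq_true_eq]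
    unfold ims one
    apply map_range_congr
    intro t ht
    rw [Bool.eq_iff_iff, List.any_eq_true, decide_eq_true_eq]
    constructor
    · rintro ⟨p, hp, h2⟩
      rw [decide_eq_true_eq, hs p (List.mem_range.1 hp)] at h2
      exact h2.symm
    · rintro rfl
      exact ⟨0, List.mem_range.2 h0, by rw [decide_eq_true_eq]; exact hs 0 h0⟩
  · rintro ⟨s, hs, h1⟩
    rw [decide_eq_true_eq] at h1
    refine ⟨hu, s, ?_⟩
    intro p hp
    have h2 := run_lt h hu hp
    have h3 := ims_getD (A := A) (u := u) h2
    rw [h1, one_getD h2] at h3
    have h4 : ((List.range (nSt A)).any fun s => decide (run A s u = run A p u)) = true := by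
      rw [List.any_eq_true]
      exact ⟨p, List.mem_range.2 hp, by simp⟩
    rw [h4] at h3
    simpa using h3

/-! ### The first language: synchronizability -/

/-- the steps -/
def stp1 (A : Table) (v w : List Bool) : Bool :=
  ((List.range (nLet A)).any fun a => decide (w = img A a v)) ||
    (sing (nSt A) v && decide (w = List.replicate (nSt A) false))

theorem replicate_ne {n : ℕ} (hn : 0 < n) : List.replicate n true ≠ List.replicate n false := by
  intro h
  have := congrArg (fun l => l.getD 0 true) h
  simp only [List.getD_eq_getElem?_getD] at this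
  rw [List.getElem?_replicate_of_lt hn, List.getElem?_replicate_of_lt hn] at this
  simp at this

theorem ims_ne_false {A : Table} (h : IsMealy A) {u : List ℕ} (hu : IsWord A u) :
    ims A u ≠ List.replicate (nSt A) false := by
  intro h1
  have h2 := run_lt h hu h.pos
  have h3 := ims_getD (A := A) (u := u) h2
  rw [h1] at h3
  have h4 : ((List.range (nSt A)).any fun s => decide (run A s u = run A 0 u)) = true := by
    rw [List.any_eq_true]
    exact ⟨0, List.mem_range.2 h.pos, by simp⟩
  rw [h4, List.getD_eq_getElem _ _ (by simpa using h2)] at h3
  simp at h3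

theorem reach1 {A : Table} (h : IsMealy A) :
    Relation.ReflTransGen (fun v w => stp1 A v w = true) (List.replicate (nSt A) true)
      (List.replicate (nSt A) false) ↔ ∃ u, Syn A u := by
  constructor
  · intro hr
    have key : ∀ v, Relation.ReflTransGen (fun v w => stp1 A v w = true)
        (List.replicate (nSt A) true) v → (∃ u, Syn A u) ∨ ∃ u, IsWord A u ∧ v = ims A u := by
      intro v hv
      induction hv with
      | refl => exact Or.inr ⟨[], fun a ha => by simp at ha, (ims_nil A).symm⟩
      | @tail v w _ hs ih =>
        rcases ih with ih | ⟨u, hu, rfl⟩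
        · exact Or.inl ih
        · unfold stp1 at hs
          rw [Bool.or_eq_true, List.any_eq_true, Bool.and_eq_true] at hs
          rcases hs with ⟨a, ha, hs⟩ | ⟨hs, _⟩
          · rw [decide_eq_true_eq, img_ims h hu] at hs
            exact Or.inr ⟨_, isWord_snoc.2 ⟨hu, List.mem_range.1 ha⟩, hs⟩
          · exact Or.inl ⟨u, (syn_iff_sing h hu).2 hs⟩
    rcases key _ hr with h1 | ⟨u, hu, h1⟩
    · exact h1
    · exact absurd h1.symm (ims_ne_false h hu)
  · rintro ⟨u, hu⟩
    have key : ∀ u : List ℕ, IsWord A u →
        Relation.ReflTransGen (fun v w => stp1 A v w = true) (List.replicate (nSt A) true)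
          (ims A u) := by
      intro u
      induction u using List.reverseRecOn with
      | nil => intro _; rw [ims_nil]
      | append_singleton u a ih =>
        intro hu
        rw [isWord_snoc] at hu
        refine (ih hu.1).tail ?_
        unfold stp1
        rw [Bool.or_eq_true, List.any_eq_true]
        exact Or.inl ⟨a, List.mem_range.2 hu.2, by rw [decide_eq_true_eq, img_ims h hu.1]⟩
    refine (key u hu.1).tail ?_
    unfold stp1
    rw [Bool.or_eq_true, Bool.and_eq_true]
    exact Or.inr ⟨(syn_iff_sing h hu.1).1 hu, by simp⟩

/-! ### The second language: violations -/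

/-- a violation of the condition (ii) -/
def Viol (A : Table) : Prop := ∃ q < nSt A, ∃ u, Syn A u ∧ ¬ Syn A (outWord A q u)

theorem viol_iff {A : Table} (h : IsMealy A) : Viol A ↔ ∃ q < nSt A, ∃ u, IsWord A u ∧
    sing (nSt A) (ims A u) = true ∧ sing (nSt A) (ims A (outWord A q u)) = false := by
  unfold Viol
  constructor
  · rintro ⟨q, hq, u, h1, h2⟩
    rw [syn_iff_sing h (isWord_outWord h h1.1 hq)] at h2
    exact ⟨q, hq, u, h1.1, (syn_iff_sing h h1.1).1 h1, by simpa using h2⟩
  · rintro ⟨q, hq, u, h1, h2, h3⟩
    refine ⟨q, hq, u, (syn_iff_sing h h1).2 h2, ?_⟩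
    rw [syn_iff_sing h (isWord_outWord h h1 hq)]
    simp [h3]

/-- the configuration -/
def cf (A : Table) (q : ℕ) (u : List ℕ) : List Bool :=
  ims A u ++ (one (nSt A) (run A q u) ++ ims A (outWord A q u))

/-- the steps -/
def stp2 (A : Table) (v w : List Bool) : Bool :=
  (decide (v = List.replicate (3 * nSt A) true) && (List.range (nSt A)).any fun q =>
    decide (w = List.replicate (nSt A) true ++ (one (nSt A) q ++ List.replicate (nSt A) true))) ||
  (((List.range (nSt A)).any fun q =>
    decide ((v.drop (nSt A)).take (nSt A) = one (nSt A) q) && (List.range (nLet A)).any fun a =>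
      decide (w = img A a (v.take (nSt A)) ++ (one (nSt A) (next A q a) ++
        img A (outp A q a) (v.drop (2 * nSt A))))) ||
  ((sing (nSt A) (v.take (nSt A)) && !sing (nSt A) (v.drop (2 * nSt A))) &&
    decide (w = List.replicate (3 * nSt A) false)))

theorem take3 {A : Table} {x y z : List Bool} (hx : x.length = nSt A) :
    (x ++ (y ++ z)).take (nSt A) = x := by
  rw [← hx, List.take_left]

theorem drop3 {A : Table} {x y z : List Bool} (hx : x.length = nSt A) (hy : y.length = nSt A) :
    ((x ++ (y ++ z)).drop (nSt A)).take (nSt A) = y := by
  rw [← hx, List.drop_left, hx, ← hy, List.take_left]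

theorem drop23 {A : Table} {x y z : List Bool} (hx : x.length = nSt A) (hy : y.length = nSt A) :
    (x ++ (y ++ z)).drop (2 * nSt A) = z := by
  rw [← List.append_assoc]
  have : 2 * nSt A = (x ++ y).length := by rw [List.length_append, hx, hy]; omega
  rw [this, List.drop_left]

theorem reach2 {A : Table} (h : IsMealy A) :
    Relation.ReflTransGen (fun v w => stp2 A v w = true) (List.replicate (3 * nSt A) true)
      (List.replicate (3 * nSt A) false) ↔ Viol A := by
  have h0 := h.pos
  rw [viol_iff h]
  constructor
  · intro hr
    set V : Prop := ∃ q < nSt A, ∃ u, IsWord A u ∧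
      sing (nSt A) (ims A u) = true ∧ sing (nSt A) (ims A (outWord A q u)) = false with hV
    have key : ∀ v, Relation.ReflTransGen (fun v w => stp2 A v w = true)
        (List.replicate (3 * nSt A) true) v → V ∨ v = List.replicate (3 * nSt A) true ∨
          ∃ q < nSt A, ∃ u, IsWord A u ∧ v = cf A q u := by
      intro v hv
      induction hv with
      | refl => exact Or.inr (Or.inl rfl)
      | @tail v w _ hs ih =>
        rcases ih with ih | ih
        · exact Or.inl ih
        · unfold stp2 at hs
          rw [Bool.or_eq_true, Bool.or_eq_true, Bool.and_eq_true, Bool.and_eq_true,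
            Bool.and_eq_true, List.any_eq_true, List.any_eq_true] at hs
          rcases hs with ⟨_, q, hq, hw⟩ | ⟨q, hq, hw⟩ | ⟨⟨h1, h2⟩, _⟩
          · rw [decide_eq_true_eq] at hw
            refine Or.inr (Or.inr ⟨q, List.mem_range.1 hq, [], fun a ha => by simp at ha, ?_⟩)
            unfold cf
            rw [hw, outWord, ims_nil]
            rfl
          · rw [Bool.and_eq_true, List.any_eq_true, decide_eq_true_eq] at hw
            obtain ⟨h1, a, ha, hw⟩ := hw
            rw [decide_eq_true_eq] at hw
            have hall : ∃ q' < nSt A, ∃ u, IsWord A u ∧ v = cf A q' u := by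
              rcases ih with ih | ih
              · have e : v = List.replicate (nSt A) true ++ (List.replicate (nSt A) true ++
                    List.replicate (nSt A) true) := by
                  rw [ih, List.replicate_append_replicate, List.replicate_append_replicate]
                  congr 1
                  omega
                rw [e, drop3 (by simp) (by simp)] at h1
                refine ⟨q, List.mem_range.1 hq, [], fun a ha => by simp at ha, ?_⟩
                unfold cf
                rw [e, outWord, ims_nil]
                have : run A q [] = q := rfl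
                rw [this, ← h1]
              · exact ih
            obtain ⟨q', hq', u, hu, rfl⟩ := hall
            unfold cf at h1 hw
            rw [drop3 (ims_length _ _) (one_length _ _)] at h1
            have e := one_inj (run_lt h hu hq') h1
            rw [take3 (ims_length _ _), drop23 (ims_length _ _) (one_length _ _), img_ims h hu,
              img_ims h (isWord_outWord h hu hq'), ← e, ← run_snoc, ← outWord_snoc] at hw
            exact Or.inr (Or.inr ⟨q', hq', u ++ [a], isWord_snoc.2 ⟨hu, List.mem_range.1 ha⟩, hw⟩)
          · have hall : ∃ q' < nSt A, ∃ u, IsWord A u ∧ ∃ y : List Bool, y.length = nSt A ∧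
                v = ims A u ++ (y ++ ims A (outWord A q' u)) := by
              rcases ih with ih | ⟨q', hq', u, hu, ih⟩
              · have e : v = List.replicate (nSt A) true ++ (List.replicate (nSt A) true ++
                    List.replicate (nSt A) true) := by
                  rw [ih, List.replicate_append_replicate, List.replicate_append_replicate]
                  congr 1
                  omega
                refine ⟨0, h0, [], fun a ha => by simp at ha, List.replicate (nSt A) true,
                  by simp, ?_⟩
                rw [outWord, ims_nil, e]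
              · exact ⟨q', hq', u, hu, _, one_length _ _, ih⟩
            obtain ⟨q', hq', u, hu, y, hy, rfl⟩ := hall
            rw [take3 (ims_length _ _)] at h1
            rw [drop23 (ims_length _ _) hy] at h2
            exact Or.inl ⟨q', hq', u, hu, h1, by simpa using h2⟩
    rcases key _ hr with h1 | h1 | ⟨q, hq, u, hu, h1⟩
    · exact h1
    · exact absurd h1.symm (replicate_ne (by omega))
    · exfalso
      apply ims_ne_false h hu
      have h2 := congrArg (fun l => l.take (nSt A)) h1
      unfold cf at h2
      rw [take3 (ims_length _ _)] at h2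
      rw [← h2, List.take_replicate]
      congr 1
      omega
  · rintro ⟨q, hq, u, hu, h1, h2⟩
    have key : ∀ u : List ℕ, IsWord A u →
        Relation.ReflTransGen (fun v w => stp2 A v w = true) (List.replicate (3 * nSt A) true)
          (cf A q u) := by
      intro u
      induction u using List.reverseRecOn with
      | nil =>
        intro _
        refine Relation.ReflTransGen.single ?_
        unfold stp2
        rw [Bool.or_eq_true, Bool.and_eq_true, List.any_eq_true]
        refine Or.inl ⟨by simp, q, List.mem_range.2 hq, ?_⟩
        rw [decide_eq_true_eq]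
        unfold cf
        rw [outWord, ims_nil]
        rfl
      | append_singleton u a ih =>
        intro hu
        rw [isWord_snoc] at hu
        refine (ih hu.1).tail ?_
        unfold stp2
        rw [Bool.or_eq_true, Bool.or_eq_true, List.any_eq_true (l := List.range (nSt A))
          (p := fun q => decide ((List.take (nSt A) (List.drop (nSt A) (cf A _ u))) =
            one (nSt A) q) && _)]
        refine Or.inr (Or.inl ⟨run A q u, List.mem_range.2 (run_lt h hu.1 hq), ?_⟩)
        rw [Bool.and_eq_true, List.any_eq_true, decide_eq_true_eq]
        refine ⟨?_, a, List.mem_range.2 hu.2, ?_⟩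
        · unfold cf
          rw [drop3 (ims_length _ _) (one_length _ _)]
        · rw [decide_eq_true_eq]
          unfold cf
          rw [take3 (ims_length _ _), drop23 (ims_length _ _) (one_length _ _), img_ims h hu.1,
            img_ims h (isWord_outWord h hu.1 hq), ← run_snoc, ← outWord_snoc]
    refine (key u hu).tail ?_
    unfold stp2
    rw [Bool.or_eq_true, Bool.or_eq_true, Bool.and_eq_true (_ && _)]
    refine Or.inr (Or.inr ⟨?_, by simp⟩)
    unfold cf
    rw [take3 (ims_length _ _), drop23 (ims_length _ _) (one_length _ _), h1, h2]
    rfl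

end Pool.Agent.V11231.RM
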